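import Pool.Agent.Lib.MP_7f7e2f_an.Main

open scoped ZeroAtInfty
open Pool.Agent.Lib.MP_7f7e2f_an

namespace Pool.Agent.Results.MP_7f7e2f_an.SymmetricKottman

/-- For every `ε > 0` there is an infinite-dimensional real Banach space `X` which has `c₀` as a
spreading model while `K^s(X) < 1 + ε`; and `K^s(c₀) = 2`. So the inequality `K^s(X) ≥ K^s(Z)`
fails for spreading models `Z` of `X`. -/
theorem result (ε : ℝ) (hε : 0 < ε) :
    ∃ (X : Type) (_ : NormedAddCommGroup X) (_ : NormedSpace ℝ X),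
      CompleteSpace X ∧ ¬ FiniteDimensional ℝ X ∧ IsSpreadingModel X C₀(ℕ, ℝ) ∧
      symKottman X < 1 + ε ∧ symKottman C₀(ℕ, ℝ) = 2 := by
  obtain ⟨X, i1, i2, h1, h2, h3, -, h5⟩ := exists_space ε hε
  exact ⟨X, i1, i2, h1, h2, h3, h5, czero_symKottman⟩

end Pool.Agent.Results.MP_7f7e2f_an.SymmetricKottman
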